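import Pool.Agent.H91.UV.TargetsA
import Pool.Agent.H78.KX.PAD

/-!
# MP_c62aed_lc: row PADU, padding of the clauses, convex programs with linear matrix inequalities
-/

namespace Pool.Agent.H36.UV

open Finset Matrix Pool.Agent.H91.UV
open Pool.Agent.H1.LP (Clause viol)
open Pool.Agent.H78.KX (ext ext_sat ext_card ext_card' sum_pad viol_pad pad)

theorem loss_avg {n r : ℕ} (P : URelax (n + r)) (C : Clause n) (y : Fin P.dim → ℝ) :
    ∑ k, ((∑ s : Fin r → Bool, P.w (ext C s) k) / 2 ^ r) * y k +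
      (∑ s : Fin r → Bool, P.w0 (ext C s)) / 2 ^ r =
    (∑ s : Fin r → Bool, P.loss (ext C s) y) / 2 ^ r := by
  unfold URelax.loss
  rw [Finset.sum_add_distrib, add_div]
  congr 1
  rw [Finset.sum_comm, Finset.sum_div]
  refine Finset.sum_congr rfl fun k _ => ?_
  rw [Finset.sum_div, Finset.sum_mul, Finset.sum_div]
  refine Finset.sum_congr rfl fun s _ => ?_
  ring

/-- the restriction of a relaxation -/
noncomputable def rest {n r : ℕ} (P : URelax (n + r)) : URelax n where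
  cell := univ.filter (fun x => Fin.append x (fun _ : Fin r => false) ∈ P.cell)
  dim := P.dim
  nb := P.nb
  ord := P.ord
  B0 := P.B0
  B := P.B
  pt := fun x => P.pt (Fin.append x (fun _ => false))
  w := fun C k => (∑ s : Fin r → Bool, P.w (ext C s) k) / 2 ^ r
  w0 := fun C => (∑ s : Fin r → Bool, P.w0 (ext C s)) / 2 ^ r
  symm0 := P.symm0
  symm := P.symm
  feas := fun x hx i => P.feas _ (mem_filter.1 hx).2 i
  bdd := by
    intro x hx C
    rw [loss_avg, abs_div, abs_of_pos (by positivity : (0 : ℝ) < 2 ^ r), div_le_one (by positivity)]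
    refine (Finset.abs_sum_le_sum_abs _ _).trans ?_
    refine (Finset.sum_le_sum fun s _ => P.bdd _ (mem_filter.1 hx).2 (ext C s)).trans ?_
    simp
  sound := by
    intro x hx C hC
    rw [loss_avg]
    refine div_nonpos_of_nonpos_of_nonneg (Finset.sum_nonpos fun s _ => ?_) (by positivity)
    refine P.sound _ (mem_filter.1 hx).2 (ext C s) ?_
    rw [ext_sat]
    left
    simpa using hC

theorem rest_size {n r : ℕ} (P : URelax (n + r)) : (rest P).size = P.size := rfl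

theorem urefutedBy_pad {n r m M : ℕ} (P : Fin M → URelax (n + r)) (phi : Fin m → Clause n)
    (de de' S S' : ℝ) (hd : de' ≤ de / 2 ^ r) (hS : S ≤ S')
    (h : URefutedBy P (pad r phi) de S) :
    URefutedBy (fun j => rest (P j)) phi de' S' := by
  obtain ⟨J, h1, h2, h3, hs⟩ := h
  refine ⟨J, ?_, ?_, ?_, hs.trans hS⟩
  · intro j hj j' hj' hne
    have := h1 j hj j' hj' hne
    rw [Finset.disjoint_left] at this ⊢
    intro x hx hx'
    exact this (mem_filter.1 hx).2 (mem_filter.1 hx').2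
  · intro x
    obtain ⟨j, hj, hx⟩ := h2 (Fin.append x (fun _ => false))
    exact ⟨j, hj, mem_filter.2 ⟨mem_univ _, hx⟩⟩
  · intro j hj y hy
    have h4 := h3 j hj y hy
    rw [sum_pad phi (fun C => (P j).loss C y)] at h4
    refine hd.trans ?_
    have h5 : ∑ i, (rest (P j)).loss (phi i) y =
        (∑ i, ∑ s : Fin r → Bool, (P j).loss (ext (phi i) s) y) / 2 ^ r := by
      rw [Finset.sum_div]
      exact Finset.sum_congr rfl fun i _ => loss_avg (P j) (phi i) y
    rw [h5]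
    exact div_le_div_of_nonneg_right h4 (by positivity)

/-- the exponents -/
lemma padu_exp (c c' : ℝ) (r n1 N : ℕ) (hd : 0 < c - c') (hN : c * r / (c - c') ≤ N)
    (hn : N ≤ n1 + r) : c' * ((n1 + r : ℕ) : ℝ) ≤ c * n1 := by
  have h1 : (N : ℝ) ≤ ((n1 + r : ℕ) : ℝ) := by exact_mod_cast hn
  have h2 : c * r ≤ ((n1 + r : ℕ) : ℝ) * (c - c') := (div_le_iff₀ hd).1 (hN.trans h1)
  have h3 : ((n1 + r : ℕ) : ℝ) = n1 + r := by push_cast; ring
  rw [h3] at h2 ⊢
  nlinarith

theorem pf_PADU : S_PADU := by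
  classical
  intro w k ε c c' C C' hwk hcc hCC hH
  obtain ⟨r, rfl⟩ := Nat.exists_eq_add_of_le hwk
  obtain ⟨K, γ, hγ, n₀, hn₀⟩ := hH
  obtain ⟨N1, hN1⟩ := exists_nat_ge (c * r / (c - c'))
  obtain ⟨N3, hN3⟩ := exists_nat_ge (C * r / (C - C'))
  obtain ⟨N2, hN2⟩ := exists_nat_ge ((γ + 1) * r / (γ / 2))
  refine ⟨K * 2 ^ r, γ / 2, by positivity, n₀ + r + N1 + N2 + N3, ?_⟩
  intro n hn
  obtain ⟨n1, rfl⟩ : ∃ n1, n = n1 + r := ⟨n - r, by omega⟩
  obtain ⟨Y, m, phi, hY, hphi, hmain⟩ := hn₀ n1 (by omega)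
  have hA := padu_exp c c' r n1 N1 (sub_pos.2 hcc) hN1 (by omega)
  have hA' := padu_exp C C' r n1 N3 (sub_pos.2 hCC) hN3 (by omega)
  have hB : (γ + 1) * r ≤ ((n1 + r : ℕ) : ℝ) * (γ / 2) := by
    have h1 : (N2 : ℝ) ≤ ((n1 + r : ℕ) : ℝ) := by exact_mod_cast (by omega : N2 ≤ n1 + r)
    exact (div_le_iff₀ (by positivity)).1 (hN2.trans h1)
  have hC : (2 : ℝ) ^ (-(γ * n1)) ≤ (2 : ℝ) ^ (-(γ / 2 * ((n1 + r : ℕ) : ℝ))) / 2 ^ r := by
    rw [le_div_iff₀ (by positivity), ← Real.rpow_natCast 2 r, ← Real.rpow_add (by norm_num)]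
    refine Real.rpow_le_rpow_of_exponent_le (by norm_num) ?_
    have h3 : ((n1 + r : ℕ) : ℝ) = n1 + r := by push_cast; ring
    rw [h3] at hB ⊢
    nlinarith
  have hD : (2 : ℝ) ^ (-(γ * n1)) ≤ (2 : ℝ) ^ (-(γ / 2 * ((n1 + r : ℕ) : ℝ))) := by
    refine hC.trans (div_le_self (by positivity) ?_)
    exact one_le_pow₀ (by norm_num)
  refine ⟨Y, fun a => m a * 2 ^ r, fun a => pad r (phi a), hY, ?_, ?_⟩
  · intro a
    obtain ⟨h1, h2, h3, h4⟩ := hphi a
    refine ⟨Nat.mul_pos h1 (by positivity), ?_, ?_, ?_⟩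
    · calc m a * 2 ^ r ≤ K * n1 * 2 ^ r := Nat.mul_le_mul_right _ h2
        _ = K * 2 ^ r * n1 := by ring
        _ ≤ K * 2 ^ r * (n1 + r) := Nat.mul_le_mul_left _ (by omega)
    · intro i
      unfold pad
      exact ⟨by rw [ext_card, (h3 _).1], by rw [ext_card', (h3 _).2]⟩
    · intro x
      rw [viol_pad]
      refine le_trans (le_of_eq ?_) (h4 _)
      have h5 : (((m a * 2 ^ r : ℕ) : ℝ)) = m a * 2 ^ r := by push_cast; ring
      rw [h5, pow_add]
      field_simp
  · intro M P hP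
    have h1 := hmain M (fun j => rest (P j)) ?_
    · refine le_trans ?_ (h1.trans (mul_le_mul_of_nonneg_right hD (by positivity)))
      norm_cast
      refine Finset.card_le_card fun a ha => ?_
      rw [mem_filter] at ha ⊢
      exact ⟨ha.1, urefutedBy_pad P (phi a) _ _ _ _ hC
        (Real.rpow_le_rpow_of_exponent_le (by norm_num) hA) ha.2⟩
    · refine hP.trans (Real.rpow_le_rpow_of_exponent_le (by norm_num) hA')

end Pool.Agent.H36.UV
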